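import Pool.Agent.Helper58.FL.Tools

/-!
# FL-12 (MP_e8a4f2_al): the objects of `Θ_n` are complete
-/

open CategoryTheory MonoidalCategory Opposite

set_option autoImplicit false

namespace Pool.Agent.Helper67.FLC

open FL

section General

variable {A : Type} [SmallCategory A]

/-- `f` is objectwise surjective and every map to a representable presheaf is constant on its
fibres. -/
def Compat {X Y : SP A} (f : X ⟶ Y) : Prop :=
  (∀ (a : Aᵒᵖ) (k : SimplexCategoryᵒᵖ) (y : (Y.obj a).obj k), ∃ x, (f.app a).app k x = y) ∧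
  ∀ (η : A) (g : X ⟶ rep η) (a : Aᵒᵖ) (k : SimplexCategoryᵒᵖ) (x x' : (X.obj a).obj k),
    (f.app a).app k x = (f.app a).app k x' → (g.app a).app k x = (g.app a).app k x'

theorem compat_bij {X Y : SP A} (f : X ⟶ Y) (h : Compat f) (η : A) :
    Function.Bijective (fun g : Y ⟶ rep η => f ≫ g) := by
  constructor
  · intro g g' hgg
    ext a k y
    obtain ⟨x, rfl⟩ := h.1 a k y
    exact ConcreteCategory.congr_hom (NatTrans.congr_app (NatTrans.congr_app hgg a) k) x
  · intro g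
    choose s hs using h.1
    refine ⟨{ app := fun a =>
        { app := fun k => ↾ fun y => (g.app a).app k (s a k y)
          naturality := ?_ }
              naturality := ?_ }, ?_⟩
    · intro k l α
      ext y
      refine (h.2 η g a l (s a l ((Y.obj a).map α y)) ((X.obj a).map α (s a k y)) ?_).trans
        (hom_natk g α (s a k y))
      rw [hs, hom_natk, hs]
    · intro a b φ
      ext k y
      refine (h.2 η g b k (s b k ((Y.map φ).app k y)) ((X.map φ).app k (s a k y)) ?_).trans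
        (hom_nat g φ (s a k y))
      rw [hs, hom_nat, hs]
    · ext a k x
      exact h.2 η g a k (s a k ((f.app a).app k x)) x (hs a k _)

end General

section Wreath

variable {C : Type} [SmallCategory C]

/-- the vertex `t` of `θ` -/
def vert (θ : Wr C) (t : Fin (θ.len + 1)) : (Wr.pt : Wr C) ⟶ θ :=
  ({ f := ⟨fun _ => t, fun _ _ _ => le_refl _⟩, g := fun (i : Fin 0) _ _ => i.elim0 } :
    Wr.Hom (Wr.pt : Wr C) θ)

@[simp] lemma vert_f (θ : Wr C) (t : Fin (θ.len + 1)) (s : Fin 1) :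
    Wr.Hom.f (vert θ t) s = t := rfl

theorem hom_pt_ext {η : Wr C} {φ ψ : (Wr.pt : Wr C) ⟶ η}
    (h : Wr.Hom.f φ (0 : Fin 1) = Wr.Hom.f ψ (0 : Fin 1)) : φ = ψ := by
  refine Wr.hom_ext' ?_ fun (i : Fin 0) _ _ _ => i.elim0
  ext (x : Fin 1)
  rw [Subsingleton.elim x (0 : Fin 1), h]

theorem not_jump_const {a b : ℕ} {f : Fin (a + 1) →o Fin (b + 1)} {p : Fin (b + 1)}
    (hf : ∀ t, f t = p) (i : Fin a) (j : Fin b) : ¬ Jump f i j := by
  rintro ⟨h1, h2⟩
  rw [hf] at h1 h2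
  have := h2.trans h1
  rw [Fin.le_def] at this
  simp at this

theorem compat_iso (c : C) : Compat (isoMap C) := by
  refine ⟨fun a k y => ⟨fun _ => true, rfl⟩, ?_⟩
  intro η g a k x x' _
  -- the vertices
  set P : Bool → ((Wr.pt : Wr C) ⟶ η) := fun b => (g.app (op Wr.pt)).app k (fun _ => b) with hP
  have key : ∀ (θ : Wr C) (ε : Fin (θ.len + 1) → Bool) (t : Fin (θ.len + 1)),
      Wr.Hom.f ((g.app (op θ)).app k ε : θ ⟶ η) t = Wr.Hom.f (P (ε t)) (0 : Fin 1) := by
    intro θ ε t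
    have h := hom_nat g (vert θ t).op (k := k) ε
    have h2 : vert θ t ≫ ((g.app (op θ)).app k ε : θ ⟶ η) = P (ε t) := h.symm
    rw [← h2]
    rfl
  have hle : ∀ b b' : Bool, Wr.Hom.f (P b) (0 : Fin 1) ≤ Wr.Hom.f (P b') (0 : Fin 1) := by
    intro b b'
    have h0 := key (⟨1, fun _ => c⟩ : Wr C) (fun t : Fin 2 => if t = 0 then b else b') (0 : Fin 2)
    have h1 := key (⟨1, fun _ => c⟩ : Wr C) (fun t : Fin 2 => if t = 0 then b else b') (1 : Fin 2)
    simp only [if_true] at h0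
    rw [if_neg (by decide)] at h1
    rw [← h0, ← h1]
    exact (Wr.Hom.f _).monotone (Fin.zero_le _)
  have heq : ∀ b b' : Bool, Wr.Hom.f (P b) (0 : Fin 1) = Wr.Hom.f (P b') (0 : Fin 1) :=
    fun b b' => le_antisymm (hle b b') (hle b' b)
  have hconst : ∀ (ε : Fin (a.unop.len + 1) → Bool) (t : Fin (a.unop.len + 1)),
      Wr.Hom.f ((g.app a).app k ε : a.unop ⟶ η) t = Wr.Hom.f (P true) (0 : Fin 1) := by
    intro ε t
    exact (key a.unop ε t).trans (heq _ _)
  refine Wr.hom_ext' (X := a.unop) (Y := η) ?_ fun i j h _ => ?_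
  · ext t
    exact congrArg Fin.val ((hconst x t).trans (hconst x' t).symm)
  · exact absurd h (not_jump_const (hconst x) i j)

/-! ### the suspension -/

variable {X Y : SP C}

/-- the simplex of the suspension attached to a simplex of `X` -/
def ww (c : C) (k : SimplexCategoryᵒᵖ) (x : (X.obj (op c)).obj k) :
    VS (fun _ : Fin 1 => X) (⟨1, fun _ => c⟩ : Wr C) k where
  f := OrderHom.id
  g _ _ _ := x

/-- the vertices of the suspension -/
def ve (X : SP C) (t : Fin 2) (k : SimplexCategoryᵒᵖ) :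
    VS (fun _ : Fin 1 => X) (Wr.pt : Wr C) k where
  f := ⟨fun _ => t, fun _ _ _ => le_refl _⟩
  g := fun (i : Fin 0) _ _ => i.elim0

theorem g_congr {θ : Wr C} {k : SimplexCategoryᵒᵖ} {m : ℕ} {Z : Fin m → SP C} {u v : VS Z θ k}
    (h : u = v) (i : Fin θ.len) (j : Fin m) (hu : Jump u.f i j) (hv : Jump v.f i j) :
    u.g i j hu = v.g i j hv := by
  subst h; rfl

theorem hg_congr {θ η : Wr C} {u v : θ ⟶ η}
    (h : u = v) (i : Fin θ.len) (j : Fin η.len) (hu : Jump (Wr.Hom.f u) i j)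
    (hv : Jump (Wr.Hom.f v) i j) : Wr.Hom.g u i j hu = Wr.Hom.g v i j hv := by
  subst h; rfl

theorem map_vert (c : C) (k : SimplexCategoryᵒᵖ) (x : (X.obj (op c)).obj k) (t : Fin 2) :
    (ww c k x).mapθ (vert (⟨1, fun _ => c⟩ : Wr C) t) = ve X t k := by
  refine VS.ext' ?_ fun (i : Fin 0) _ _ _ => i.elim0
  ext (s : Fin 1)
  rfl

theorem map_ofComp {c c' : C} (γ : c' ⟶ c) (k : SimplexCategoryᵒᵖ) (x : (X.obj (op c)).obj k) :
    (ww c k x).mapθ (Wr.ofComp (X := fun _ : Fin 1 => c') (Y := fun _ => c) fun _ => γ) =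
      ww c' k ((X.map γ.op).app k x) := by
  refine VS.ext' rfl fun (i : Fin 1) (j : Fin 1) h h' => ?_
  have h0 : Jump (Wr.Hom.f (Wr.ofComp (X := fun _ : Fin 1 => c') (Y := fun _ => c) fun _ => γ))
      i i := jump_id.mpr rfl
  have h1 : Jump (ww c k x).f i j := h
  refine (VS.mapθ_g (Wr.ofComp (X := fun _ : Fin 1 => c') (Y := fun _ => c) fun _ => γ)
    (ww c k x) h0 h1).trans ?_
  rw [Wr.ofComp_g]
  rfl

section

variable {η : Wr C} (G : V1 X ⟶ rep η)

/-- evaluation of `G` -/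
def ev {θ : Wr C} {k : SimplexCategoryᵒᵖ} (u : VS (fun _ : Fin 1 => X) θ k) : θ ⟶ η :=
  (G.app (op θ)).app k u

theorem ev_map {θ θ' : Wr C} (φ : θ' ⟶ θ) {k : SimplexCategoryᵒᵖ}
    (u : VS (fun _ : Fin 1 => X) θ k) : ev G (u.mapθ φ) = φ ≫ ev G u :=
  hom_nat G φ.op (k := k) u

theorem ev_mapk {θ : Wr C} {k l : SimplexCategoryᵒᵖ} (α : k ⟶ l)
    (u : VS (fun _ : Fin 1 => X) θ k) : ev G (u.mapk α) = ev G u :=
  hom_natk G (a := op θ) α u

/-- the end points -/
def pp (t : Fin 2) : Fin (η.len + 1) :=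
  Wr.Hom.f (ev G (ve X t (op (SimplexCategory.mk 0)))) (0 : Fin 1)

theorem ev_ve (t : Fin 2) (k : SimplexCategoryᵒᵖ) :
    Wr.Hom.f (ev G (ve X t k)) (0 : Fin 1) = pp G t := by
  have α : op (SimplexCategory.mk 0) ⟶ k :=
    (SimplexCategory.isTerminalZero.from k.unop).op
  have h : (ve X t (op (SimplexCategory.mk 0))).mapk α = ve X t k := by
    refine VS.ext' rfl fun (i : Fin 0) _ _ _ => i.elim0
  rw [← h, ev_mapk]
  rfl

theorem ev_ww (c : C) (k : SimplexCategoryᵒᵖ) (x : (X.obj (op c)).obj k) (t : Fin 2) :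
    Wr.Hom.f (ev G (ww c k x)) t = pp G t := by
  have h := ev_map G (vert (⟨1, fun _ => c⟩ : Wr C) t) (ww c k x)
  rw [map_vert] at h
  rw [← ev_ve G t k, h]
  rfl

theorem jump_ww (c : C) (k : SimplexCategoryᵒᵖ) (x : (X.obj (op c)).obj k) (j : Fin η.len)
    (h0 : pp G 0 ≤ j.castSucc) (h1 : j.succ ≤ pp G 1) :
    Jump (Wr.Hom.f (ev G (ww c k x))) (0 : Fin 1) j := by
  constructor
  · exact (ev_ww G c k x 0).le.trans h0
  · exact h1.trans (ev_ww G c k x 1).ge

/-- the components of `G` -/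
def comp (j : Fin η.len) (h0 : pp G 0 ≤ j.castSucc) (h1 : j.succ ≤ pp G 1) :
    X ⟶ rep (η.obj j) where
  app a :=
    { app := fun k => ↾ fun x => Wr.Hom.g (ev G (ww a.unop k x)) (0 : Fin 1) j
        (jump_ww G a.unop k x j h0 h1)
      naturality := fun k l α => by
        ext x
        exact hg_congr (ev_mapk G α (ww a.unop k x)) _ _ _ _ }
  naturality a b γ := by
    ext k x
    have e := ev_map G (Wr.ofComp (X := fun _ : Fin 1 => b.unop) (Y := fun _ => a.unop)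
      fun _ => γ.unop) (ww a.unop k x)
    rw [map_ofComp] at e
    have h2 : Jump (Wr.Hom.f (Wr.ofComp (X := fun _ : Fin 1 => b.unop) (Y := fun _ => a.unop)
      fun _ => γ.unop)) (0 : Fin 1) (0 : Fin 1) := jump_id.mpr rfl
    have h3 := jump_ww G a.unop k x j h0 h1
    refine (hg_congr e (0 : Fin 1) j _ (h2.comp h3)).trans ?_
    refine (Wr.comp_g _ _ h2 h3).trans ?_
    rw [Wr.ofComp_g]
    rfl

end

theorem ev_ww_eq {f : X ⟶ Y} (h : Compat f) {η : Wr C} (G : V1 X ⟶ rep η) (c : C)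
    (k : SimplexCategoryᵒᵖ) (x x' : (X.obj (op c)).obj k)
    (hx : (f.app (op c)).app k x = (f.app (op c)).app k x') :
    ev G (ww c k x) = ev G (ww c k x') := by
  have hv : ∀ y : (X.obj (op c)).obj k, ∀ t, Wr.Hom.f (ev G (ww c k y)) t = pp G t :=
    fun y t => ev_ww G c k y t
  refine Wr.hom_ext' (X := (⟨1, fun _ => c⟩ : Wr C)) (Y := η) ?_ fun (i : Fin 1) j hj hj' => ?_
  · ext t
    exact congrArg Fin.val ((hv x t).trans (hv x' t).symm)
  · obtain rfl : i = 0 := Subsingleton.elim _ _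
    have h0 : pp G 0 ≤ j.castSucc := (hv x 0).ge.trans hj.1
    have h1 : j.succ ≤ pp G 1 := hj.2.trans (hv x 1).le
    exact h.2 (η.obj j) (comp G j h0 h1) (op c) k x x' hx

/-- the morphism `θ ⟶ [1](θ_i)` -/
def psi (θ : Wr C) (F : Fin (θ.len + 1) →o Fin 2) (i0 : Fin θ.len) (h0 : Jump (b := 1) F i0 0) :
    θ ⟶ (⟨1, fun _ => θ.obj i0⟩ : Wr C) :=
  ({ f := F
     g := fun i (j : Fin 1) h => eqToHom (by
      obtain rfl : j = 0 := Subsingleton.elim _ _
      rw [Jump.unique h h0]) } : Wr.Hom θ (⟨1, fun _ => θ.obj i0⟩ : Wr C))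

theorem psi_g (θ : Wr C) (F : Fin (θ.len + 1) →o Fin 2) (i0 : Fin θ.len)
    (h0 : Jump (b := 1) F i0 0) : Wr.Hom.g (psi θ F i0 h0) i0 (0 : Fin 1) h0 = 𝟙 _ := rfl

theorem eq_map_psi (θ : Wr C) (k : SimplexCategoryᵒᵖ) (u : VS (fun _ : Fin 1 => X) θ k)
    (i0 : Fin θ.len) (h0 : Jump u.f i0 (0 : Fin 1)) :
    u = (ww (θ.obj i0) k (u.g i0 0 h0)).mapθ (psi θ u.f i0 h0) := by
  refine VS.ext' rfl fun i (j : Fin 1) h h' => ?_
  obtain rfl : j = 0 := Subsingleton.elim _ _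
  obtain rfl : i = i0 := Jump.unique h h0
  have h1 : Jump (ww (θ.obj i) k (u.g i 0 h0)).f (0 : Fin 1) (0 : Fin 1) := jump_id.mpr rfl
  refine Eq.trans ?_ (VS.mapθ_g (psi θ u.f i h0) (ww (θ.obj i) k (u.g i 0 h0)) h0 h1).symm
  rw [psi_g]
  exact (sp_id X _).symm

theorem compat_susp (f : X ⟶ Y) (h : Compat f) : Compat (V1map f) := by
  constructor
  · intro a k y
    let y' : VS (fun _ : Fin 1 => Y) a.unop k := y
    choose s hs using fun (i : Fin a.unop.len) (j : Fin 1) (hj : Jump y'.f i j) =>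
      h.1 (op (a.unop.obj i)) k (y'.g i j hj)
    exact ⟨(⟨y'.f, s⟩ : VS (fun _ : Fin 1 => X) a.unop k),
      VS.ext' (u := VS.push (fun _ : Fin 1 => f) ⟨y'.f, s⟩) (v := y') rfl
        fun i j hj _ => hs i j hj⟩
  · intro η G a k u u' huu
    show ev G (θ := a.unop) u = ev G (θ := a.unop) u'
    have huu' : VS.push (fun _ : Fin 1 => f) (θ := a.unop) (k := k) u =
      VS.push (fun _ : Fin 1 => f) (θ := a.unop) (k := k) u' := huu
    obtain ⟨uf, ug⟩ := u
    obtain ⟨uf', ug'⟩ := u'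
    have hf : uf = uf' := congrArg VS.f huu'
    subst hf
    have hg : ∀ i j (hj : Jump uf i j), (f.app (op (a.unop.obj i))).app k (ug i j hj) =
        (f.app (op (a.unop.obj i))).app k (ug' i j hj) :=
      fun i j hj => g_congr huu' i j hj hj
    by_cases hex : ∃ i, Jump uf i (0 : Fin 1)
    · obtain ⟨i0, h0⟩ := hex
      rw [eq_map_psi a.unop k ⟨uf, ug⟩ i0 h0, eq_map_psi a.unop k ⟨uf, ug'⟩ i0 h0, ev_map, ev_map]
      rw [ev_ww_eq h G (a.unop.obj i0) k (ug i0 0 h0) (ug' i0 0 h0) (hg i0 0 h0)]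
    · congr 1
      refine VS.ext' rfl fun i (j : Fin 1) hj _ => ?_
      obtain rfl : j = 0 := Subsingleton.elim _ _
      exact absurd ⟨i, hj⟩ hex

end Wreath

/-- `Θ_n` is inhabited -/
noncomputable def obTh : (n : ℕ) → Th n
  | 0 => (⟨PUnit.unit⟩ : Discrete PUnit.{1})
  | (n + 1) => (Wr.pt : Wr (Th n))

theorem isCompl_compat {n : ℕ} {X Y : SP (Th n)} (f : X ⟶ Y) (hf : IsCompl n f) : Compat f := by
  induction hf with
  | base n => exact compat_iso (obTh n)
  | susp f _ ih => exact compat_susp f ih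

theorem isCompl_bij {n : ℕ} {X Y : SP (Th n)} (f : X ⟶ Y) (hf : IsCompl n f) (η : Th n) :
    Function.Bijective fun g : Y ⟶ rep η => f ≫ g :=
  compat_bij f (isCompl_compat f hf) η

end Pool.Agent.Helper67.FLC
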